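import Pool.Agent.Helper23.GK.StB
import Pool.Agent.Helper48.BK.M_Ldisc

/-! # Project GK, module AP1: approximation of `L(s, χ)` by a partial sum -/

set_option autoImplicit false

namespace Pool.Agent.Helper44.GK

open Pool.Agent.Helper23.GK
open Finset MeasureTheory Complex Filter Topology
open Pool.Agent.Helper48.BK (P_Ldisc norm_P_Ldisc meas_P_Ldisc mellin_Ldisc eq_Ldisc)

theorem sumP_AP1 {q : ℕ} (χ : DirichletCharacter ℂ q) (n : ℕ) :
    ∑ k ∈ Icc 0 n, (if k = 0 then (0 : ℂ) else χ (k : ZMod q)) =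
      ∑ k ∈ Icc 1 n, χ (k : ZMod q) := by
  rw [← insert_Icc_add_one_left_eq_Icc n.zero_le, sum_insert (by simp), if_pos rfl, zero_add,
    zero_add]
  refine sum_congr rfl fun k hk => ?_
  rw [if_neg (Nat.one_le_iff_ne_zero.1 (mem_Icc.1 hk).1)]

theorem intOn_AP1 {q : ℕ} [NeZero q] (χ : DirichletCharacter ℂ q) (hχ : χ ≠ 1) {s : ℂ}
    (hs : 0 < s.re) {a : ℝ} (ha : 0 < a) :
    IntegrableOn (fun t : ℝ => P_Ldisc χ t * (t : ℂ) ^ (-(s + 1))) (Set.Ioi a) := by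
  have hi := integrableOn_Ioi_rpow_of_lt (a := -(s.re + 1)) (by linarith) ha
  refine Integrable.mono' (hi.const_mul (q : ℝ)) ?_ ?_
  · refine AEStronglyMeasurable.mul (meas_P_Ldisc χ).aestronglyMeasurable ?_
    refine ContinuousOn.aestronglyMeasurable (fun t ht => ?_) measurableSet_Ioi
    refine ContinuousAt.continuousWithinAt ?_
    have ht0 : (0 : ℝ) < t := lt_trans ha ht
    exact (continuousAt_ofReal_cpow_const t _ (Or.inr ht0.ne'))
  · refine (ae_restrict_iff' measurableSet_Ioi).2 (Eventually.of_forall fun t ht => ?_)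
    have ht0 : (0 : ℝ) < t := lt_trans ha ht
    rw [norm_mul, norm_cpow_eq_rpow_re_of_pos ht0]
    have e : (-(s + 1)).re = -(s.re + 1) := by simp
    rw [e]
    exact mul_le_mul_of_nonneg_right (norm_P_Ldisc χ hχ t) (Real.rpow_nonneg ht0.le _)

theorem tail_AP1 {q : ℕ} [NeZero q] (χ : DirichletCharacter ℂ q) (hχ : χ ≠ 1) {s : ℂ}
    (hs : 0 < s.re) {a : ℝ} (ha : 0 < a) :
    ‖∫ t in Set.Ioi a, P_Ldisc χ t * (t : ℂ) ^ (-(s + 1))‖ ≤ q * (a ^ (-s.re) / s.re) := by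
  have hi := integrableOn_Ioi_rpow_of_lt (a := -(s.re + 1)) (by linarith) ha
  have h := norm_integral_le_of_norm_le (μ := volume.restrict (Set.Ioi a))
    (f := fun t : ℝ => P_Ldisc χ t * (t : ℂ) ^ (-(s + 1)))
    (g := fun t : ℝ => (q : ℝ) * t ^ (-(s.re + 1))) (hi.const_mul (q : ℝ))
    (by
      refine (ae_restrict_iff' measurableSet_Ioi).2 (Eventually.of_forall fun t ht => ?_)
      have ht0 : (0 : ℝ) < t := lt_trans ha ht
      rw [norm_mul, norm_cpow_eq_rpow_re_of_pos ht0]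
      have e : (-(s + 1)).re = -(s.re + 1) := by simp
      rw [e]
      exact mul_le_mul_of_nonneg_right (norm_P_Ldisc χ hχ t) (Real.rpow_nonneg ht0.le _))
  refine h.trans (le_of_eq ?_)
  rw [integral_const_mul, integral_Ioi_rpow_of_lt (by linarith) ha]
  have e : -(s.re + 1) + 1 = -s.re := by ring
  rw [e, neg_div_neg_eq]

theorem abel_AP1 {q : ℕ} (χ : DirichletCharacter ℂ q) {s : ℂ} (hs : 0 < s.re) (N : ℕ) :
    ∑ n ∈ Icc 1 N, χ (n : ZMod q) * (n : ℂ) ^ (-s) =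
      (N : ℂ) ^ (-s) * P_Ldisc χ N +
        s * ∫ t in Set.Ioc (1 : ℝ) N, P_Ldisc χ t * (t : ℂ) ^ (-(s + 1)) := by
  have hs0 : s ≠ 0 := ne_zero_of_re_pos hs
  have h := sum_mul_eq_sub_integral_mul₀' (fun k : ℕ => if k = 0 then (0 : ℂ) else χ (k : ZMod q))
    (f := fun x : ℝ => (x : ℂ) ^ (-s)) (if_pos rfl) N
    (fun t ht => differentiableAt_id.ofReal_cpow_const
      (zero_lt_one.trans_le (Set.mem_Icc.1 ht).1).ne' (neg_ne_zero.mpr hs0))
    (by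
      have h1 := integrableOn_Ici_iff_integrableOn_Ioi (μ := volume) (b := (1 : ℝ))
        (f := deriv fun x : ℝ => (x : ℂ) ^ (-s))
      exact (h1.2 (integrableOn_Ioi_deriv_ofReal_cpow zero_lt_one (by simpa using hs))).mono_set
        Set.Icc_subset_Ici_self)
  have e1 : ∑ n ∈ Icc 1 N, χ (n : ZMod q) * (n : ℂ) ^ (-s) =
      ∑ k ∈ Icc 0 N, ((((k : ℕ) : ℝ) : ℂ) ^ (-s)) * (if k = 0 then (0 : ℂ) else χ (k : ZMod q)) := by
    rw [← insert_Icc_add_one_left_eq_Icc N.zero_le, sum_insert (by simp), if_pos rfl, mul_zero,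
      zero_add, zero_add]
    refine sum_congr rfl fun k hk => ?_
    rw [if_neg (Nat.one_le_iff_ne_zero.1 (mem_Icc.1 hk).1), mul_comm, ofReal_natCast]
  rw [e1, h, sumP_AP1, ofReal_natCast]
  have e2 : P_Ldisc χ (N : ℝ) = ∑ k ∈ Icc 1 N, χ (k : ZMod q) := by
    unfold P_Ldisc
    rw [Nat.floor_natCast]
  rw [e2, ← integral_const_mul, sub_eq_add_neg, ← integral_neg]
  congr 1
  refine setIntegral_congr_fun measurableSet_Ioc fun t ht => ?_
  have ht0 : t ≠ 0 := (zero_lt_one.trans (Set.mem_Ioc.1 ht).1).ne'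
  rw [deriv_ofReal_cpow_const ht0 (neg_ne_zero.mpr hs0), sumP_AP1, neg_add']
  unfold P_Ldisc
  ring

theorem hAP1 : StAp1 := by
  intro q _ χ s N hχ hs hN
  have hs0 : 0 < s.re := by linarith
  have hN0 : (0 : ℝ) < N := by exact_mod_cast hN
  have hN1 : (1 : ℝ) ≤ N := by exact_mod_cast hN
  have hsplit : ∫ t in Set.Ioi (1 : ℝ), P_Ldisc χ t * (t : ℂ) ^ (-(s + 1)) =
      (∫ t in Set.Ioc (1 : ℝ) N, P_Ldisc χ t * (t : ℂ) ^ (-(s + 1))) +
        ∫ t in Set.Ioi (N : ℝ), P_Ldisc χ t * (t : ℂ) ^ (-(s + 1)) := by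
    rw [← Set.Ioc_union_Ioi_eq_Ioi hN1]
    exact setIntegral_union (Set.Ioc_disjoint_Ioi le_rfl) measurableSet_Ioi
      ((intOn_AP1 χ hχ hs0 zero_lt_one).mono_set Set.Ioc_subset_Ioi_self)
      (intOn_AP1 χ hχ hs0 hN0)
  rw [eq_Ldisc χ hχ hs0, mellin_Ldisc, hsplit, abel_AP1 χ hs0 N]
  have e : s * ((∫ t in Set.Ioc (1 : ℝ) N, P_Ldisc χ t * (t : ℂ) ^ (-(s + 1))) +
        ∫ t in Set.Ioi (N : ℝ), P_Ldisc χ t * (t : ℂ) ^ (-(s + 1))) -
      ((N : ℂ) ^ (-s) * P_Ldisc χ N +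
        s * ∫ t in Set.Ioc (1 : ℝ) N, P_Ldisc χ t * (t : ℂ) ^ (-(s + 1))) =
      s * (∫ t in Set.Ioi (N : ℝ), P_Ldisc χ t * (t : ℂ) ^ (-(s + 1))) -
        (N : ℂ) ^ (-s) * P_Ldisc χ N := by ring
  rw [e]
  have hX : (0 : ℝ) ≤ (N : ℝ) ^ (-s.re) := Real.rpow_nonneg hN0.le _
  have hq : (0 : ℝ) ≤ q := Nat.cast_nonneg q
  have hns : s.re ≤ ‖s‖ := (le_abs_self _).trans (abs_re_le_norm s)
  have h1 : ‖s * ∫ t in Set.Ioi (N : ℝ), P_Ldisc χ t * (t : ℂ) ^ (-(s + 1))‖ ≤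
      ‖s‖ * (2 * q * (N : ℝ) ^ (-s.re)) := by
    rw [norm_mul]
    refine mul_le_mul_of_nonneg_left ((tail_AP1 χ hχ hs0 hN0).trans ?_) (norm_nonneg _)
    rw [← mul_div_assoc, div_le_iff₀ hs0]
    have := mul_nonneg hq hX
    nlinarith
  have h2 : ‖(N : ℂ) ^ (-s) * P_Ldisc χ N‖ ≤ 2 * ‖s‖ * (q * (N : ℝ) ^ (-s.re)) := by
    have e3 : ‖(N : ℂ) ^ (-s)‖ = (N : ℝ) ^ (-s.re) := by
      rw [← ofReal_natCast, norm_cpow_eq_rpow_re_of_pos hN0, neg_re]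
    rw [norm_mul, e3]
    have h3 := mul_le_mul_of_nonneg_left (norm_P_Ldisc χ hχ N) hX
    have h4 := mul_nonneg hq hX
    nlinarith
  refine (norm_sub_le _ _).trans ((add_le_add h1 h2).trans (le_of_eq ?_))
  ring

end Pool.Agent.Helper44.GK
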